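import Pool.Agent.Helper35.HG.StA
import Pool.Agent.Helper32.HC.M_PXR

/-!
Project HG (MP_925021_gt), module CTA (helper10): commutator and off-diagonal terms at a maximal pair.
-/

set_option autoImplicit false

namespace Helper10.HG

open Helper35.HG Helper35.HC Helper35.HSF Helper35.MS Helper35.PI Helper35.PI2 Helper32.CL
open Helper32.HC (dt dt_comm dt_l dt_r dt_nn dt_sq bil_mv bil_symm bil_l bil_r mv_lin opg)
open Finset

variable {n : ℕ}

/-- the key estimate for one of the two vectors `P + Q`, `P - Q` -/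
theorem tb2 {K b : Fin n → Fin n → ℝ} (hK : SymS K) (hb : SymS b) (μ G lam sg : ℝ) (hG : 0 ≤ G)
    (s : Fin n → ℝ) (hs : dt s s = 2) (hKs : ∀ i, Helper32.HC.mv K s i = lam * s i)
    (hw : ∀ w, sg * (lam * dt w w - bil K w w) ≤ 2 * μ * dt w w)
    (hop : ∀ c d, dt c d = 0 → bil b c d ^ 2 ≤ G * (dt c c * dt d d)) :
    sg * (lam * dt (Helper32.HC.mv b s) (Helper32.HC.mv b s)
      - bil K (Helper32.HC.mv b s) (Helper32.HC.mv b s)) ≤
      2 * μ * (dt (Helper32.HC.mv b s) (Helper32.HC.mv b s) - dt (Helper32.HC.mv b s) s ^ 2 / 2) ∧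
    dt (Helper32.HC.mv b s) (Helper32.HC.mv b s) - dt (Helper32.HC.mv b s) s ^ 2 / 2 ≤ 2 * G := by
  set S := Helper32.HC.mv b s with hS
  have hKs' : Helper32.HC.mv K s = fun i => lam * s i + 0 * s i := by
    funext i
    rw [hKs i]
    ring
  have h1 : bil K S s = lam * dt S s := by
    rw [bil_mv, hKs', dt_r]
    ring
  have h2 : bil K s s = lam * 2 := by
    rw [bil_mv, hKs', dt_r, hs]
    ring
  have h3 : bil K s S = lam * dt S s := by rw [bil_symm hK, h1]
  have h4 : dt s S = dt S s := dt_comm _ _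
  set w : Fin n → ℝ := fun i => 1 * S i + (-(dt S s / 2)) * s i with hwd
  have h5 : dt w w = dt S S - dt S s ^ 2 / 2 := by
    rw [hwd, dt_l, dt_r, dt_r, h4, hs]
    ring
  have h6 : bil K w w = bil K S S - lam * dt S s ^ 2 / 2 := by
    rw [hwd, bil_l, bil_r, bil_r, h1, h2, h3]
    ring
  have h7 : dt s w = 0 := by
    rw [hwd, dt_r, h4, hs]
    ring
  have h8 : bil b s w = dt w w := by
    rw [← bil_symm hb, bil_mv, ← hS, h5, hwd, dt_l, h4]
    ring
  refine ⟨?_, ?_⟩
  · have := hw w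
    rw [h5, h6] at this
    linarith [this]
  · rw [← h5]
    have h9 := hop s w h7
    rw [h8, hs] at h9
    have h10 := dt_nn w
    by_contra hc
    rw [not_le] at hc
    nlinarith

theorem bil_zero (c d : Fin n → ℝ) : bil (0 : Fin n → Fin n → ℝ) c d = 0 := by simp [bil]

/-- normalisation, one matrix -/
theorem opg1 {b : Fin n → Fin n → ℝ} {G : ℝ} (hG : 0 ≤ G) (mx : ∀ c d, OP c d → bil b c d ^ 2 ≤ G) :
    ∀ c d, dt c d = 0 → bil b c d ^ 2 ≤ G * (dt c c * dt d d) := by
  intro c d hcd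
  have h := opg (K := 0) (b := b) (μ := Real.sqrt G) (fun c d h => by
    rw [bil_zero, Real.sq_sqrt hG]
    have := mx c d h
    linarith) c d hcd
  rw [Real.sq_sqrt hG] at h
  exact h

theorem spread {K : Fin n → Fin n → ℝ} (hK : SymS K) {κ : ℝ} (hκ : 0 ≤ κ)
    (mx : ∀ c d, OP c d → bil K c d ^ 2 ≤ κ ^ 2) (c d : Fin n → ℝ) (h : OP c d) :
    bil K c c - bil K d d ≤ 2 * κ := by
  have hcc : dt c c = 1 := by rw [dt_sq]; exact h.1
  have hdd : dt d d = 1 := by rw [dt_sq]; exact h.2.1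
  have hcd : dt c d = 0 := h.2.2
  have hdc : dt d c = 0 := by rw [dt_comm]; exact hcd
  have h1 := opg1 (sq_nonneg κ) mx (fun i => 1 * c i + 1 * d i) (fun i => 1 * c i + (-1) * d i) (by
    rw [dt_l, dt_r, dt_r, hcc, hdd, hcd, hdc]; ring)
  rw [bil_l, bil_r, bil_r, dt_l, dt_r, dt_r, dt_l, dt_r, dt_r, hcc, hdd, hcd, hdc, bil_symm hK c d] at h1
  have h2 : (bil K c c - bil K d d) ^ 2 ≤ (2 * κ) ^ 2 := by linarith
  exact le_trans (le_abs_self _) (abs_le_of_sq_le_sq h2 (by linarith))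

theorem hCTA (hPXE : StPXE) (hSPR : StSPR) : StCTA := by
  intro n hn K B P Q E F hK hB hop hE hκ0 hmK hmB
  have hn0 : (0 : ℝ) < n := by
    have : 0 < n := by omega
    exact_mod_cast this
  set κ := bil K P Q with hκ
  obtain ⟨_, s2⟩ := hSPR n hn K κ hK hκ0 (spread hK hκ0 hmK)
  obtain ⟨s3, _⟩ := s2 B hB
  have hEn : 0 ≤ E / n := div_nonneg hE hn0.le
  have hcq : E / n * cq K B ≤ E / n * (4 * κ ^ 2 * ip0 B B) := mul_le_mul_of_nonneg_left s3 hEn
  obtain ⟨G, hGd⟩ : ∃ G, G = F - E / n * ip0 B B := ⟨_, rfl⟩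
  have hG : 0 ≤ G := by
    have := hmB P Q hop
    have h2 := sq_nonneg (bil B P Q)
    linarith
  have hBG : ∀ c d, OP c d → bil B c d ^ 2 ≤ G := by
    intro c d h
    have := hmB c d h
    linarith
  have main : κ * QB K B P Q ≤ 4 * κ ^ 2 * G := by
    rcases eq_or_lt_of_le hκ0 with h0 | hpos
    · rw [← h0]; simp
    · have hM : MXP K 0 P Q κ :=
        ⟨hK, fun _ _ => rfl, hop, rfl, bil_zero P Q, hpos, fun c d h => by
          rw [bil_zero]
          have := hmK c d h
          linarith⟩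
      obtain ⟨k₀, hk⟩ : ∃ k₀, k₀ = bil K P P := ⟨_, rfl⟩
      obtain ⟨e1, e2, e3, e4, e5⟩ := hPXE n hn K 0 P Q κ hM k₀ hk
      have hPP : dt P P = 1 := by rw [dt_sq]; exact hop.1
      have hQQ : dt Q Q = 1 := by rw [dt_sq]; exact hop.2.1
      have hPQ : dt P Q = 0 := hop.2.2
      have hQP : dt Q P = 0 := by rw [dt_comm]; exact hPQ
      have KP : Helper32.HC.mv K P = fun i => k₀ * P i + κ * Q i := funext e2
      have KQ : Helper32.HC.mv K Q = fun i => k₀ * Q i + κ * P i := funext e3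
      set u := Helper32.HC.mv B P with hu
      set v := Helper32.HC.mv B Q with hv
      have hQB : QB K B P Q = 2 * k₀ * dt u v + κ * (dt u u + dt v v) - 2 * bil K u v := by
        have a1 : Helper35.HG.mv B P = u := rfl
        have a2 : Helper35.HG.mv B Q = v := rfl
        unfold QB
        rw [a1, a2, ← hk, ← dt_sq, ← dt_sq]
        change -2 * bil K u v + 2 * k₀ * dt u v + κ * (dt u u + dt v v) = _
        ring
      have dsp : dt (fun i => 1 * P i + 1 * Q i) (fun i => 1 * P i + 1 * Q i) = 2 := by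
        rw [dt_l, dt_r, dt_r, hPP, hQQ, hPQ, hQP]
        ring
      have dsm : dt (fun i => 1 * P i + (-1) * Q i) (fun i => 1 * P i + (-1) * Q i) = 2 := by
        rw [dt_l, dt_r, dt_r, hPP, hQQ, hPQ, hQP]
        ring
      have Kp : ∀ i, Helper32.HC.mv K (fun i => 1 * P i + 1 * Q i) i =
          (k₀ + κ) * (fun i => 1 * P i + 1 * Q i) i := by
        intro i
        rw [mv_lin, KP, KQ]
        ring
      have Km : ∀ i, Helper32.HC.mv K (fun i => 1 * P i + (-1) * Q i) i =
          (k₀ - κ) * (fun i => 1 * P i + (-1) * Q i) i := by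
        intro i
        rw [mv_lin, KP, KQ]
        ring
      have hw1 : ∀ w, 1 * ((k₀ + κ) * dt w w - bil K w w) ≤ 2 * κ * dt w w := by
        intro w
        have := (e4 w).1
        rw [← dt_sq] at this
        linarith
      have hw2 : ∀ w, (-1) * ((k₀ - κ) * dt w w - bil K w w) ≤ 2 * κ * dt w w := by
        intro w
        have := (e4 w).2
        rw [← dt_sq] at this
        linarith
      obtain ⟨p1, p2⟩ := tb2 hK hB κ G (k₀ + κ) 1 hG _ dsp Kp hw1 (opg1 hG hBG)
      obtain ⟨q1, q2⟩ := tb2 hK hB κ G (k₀ - κ) (-1) hG _ dsm Km hw2 (opg1 hG hBG)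
      have bp : Helper32.HC.mv B (fun i => 1 * P i + 1 * Q i) = fun i => 1 * u i + 1 * v i :=
        funext (mv_lin B 1 1 P Q)
      have bm : Helper32.HC.mv B (fun i => 1 * P i + (-1) * Q i) = fun i => 1 * u i + (-1) * v i :=
        funext (mv_lin B 1 (-1) P Q)
      have hT : 2 * k₀ * dt u v + κ * (dt u u + dt v v) - 2 * bil K u v =
          (1 * ((k₀ + κ) * dt (Helper32.HC.mv B fun i => 1 * P i + 1 * Q i)
              (Helper32.HC.mv B fun i => 1 * P i + 1 * Q i)
            - bil K (Helper32.HC.mv B fun i => 1 * P i + 1 * Q i)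
              (Helper32.HC.mv B fun i => 1 * P i + 1 * Q i)) +
          (-1) * ((k₀ - κ) * dt (Helper32.HC.mv B fun i => 1 * P i + (-1) * Q i)
              (Helper32.HC.mv B fun i => 1 * P i + (-1) * Q i)
            - bil K (Helper32.HC.mv B fun i => 1 * P i + (-1) * Q i)
              (Helper32.HC.mv B fun i => 1 * P i + (-1) * Q i))) / 2 := by
        rw [bp, bm, dt_l, dt_r, dt_r, dt_l, dt_r, dt_r, bil_l, bil_r, bil_r, bil_l, bil_r, bil_r,
          dt_comm v u, bil_symm hK u v]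
        ring
      have hT2 : QB K B P Q ≤ κ * (4 * G) := by
        rw [hQB, hT]
        have p3 := mul_le_mul_of_nonneg_left p2 (show (0 : ℝ) ≤ 2 * κ by linarith)
        have q3 := mul_le_mul_of_nonneg_left q2 (show (0 : ℝ) ≤ 2 * κ by linarith)
        linarith
      calc κ * QB K B P Q ≤ κ * (κ * (4 * G)) := mul_le_mul_of_nonneg_left hT2 hκ0
        _ = 4 * κ ^ 2 * G := by ring
  calc κ * QB K B P Q + E / n * cq K B ≤ 4 * κ ^ 2 * G + E / n * (4 * κ ^ 2 * ip0 B B) :=
        add_le_add main hcq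
    _ = 4 * κ ^ 2 * F := by rw [hGd]; ring

end Helper10.HG
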