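import Pool.Agent.Helper80.HG.St

/-!
# Project HG, module KN: the commutator of a large and a small element
-/

set_option autoImplicit false

namespace Pool.Agent.Helper10.HG

open Pool.Agent.Helper80.HG Filter Topology Asymptotics
open scoped commutatorElement

/-- mean value theorem for `exp (-L)` -/
theorem mvt_exp (L L' : ℝ → ℝ) (z t : ℝ) (ht : 0 < t)
    (hd : ∀ ξ, z ≤ ξ → HasDerivAt L (L' ξ) ξ) :
    ∃ ξ, z < ξ ∧ ξ < z + t ∧
      Real.exp (-L (z + t)) - Real.exp (-L z) = -(L' ξ * Real.exp (-L ξ)) * t := by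
  have hder : ∀ ξ, z ≤ ξ → HasDerivAt (fun s => Real.exp (-L s)) (Real.exp (-L ξ) * (-L' ξ)) ξ :=
    fun ξ hξ => (hd ξ hξ).neg.exp
  obtain ⟨ξ, hξ, h⟩ := exists_hasDerivAt_eq_slope (fun s => Real.exp (-L s))
    (fun ξ => Real.exp (-L ξ) * (-L' ξ)) (show z < z + t by linarith)
    (fun s hs => (hder s hs.1).continuousAt.continuousWithinAt)
    (fun s hs => hder s hs.1.le)
  refine ⟨ξ, hξ.1, hξ.2, ?_⟩
  have h' : Real.exp (-L ξ) * (-L' ξ) = (Real.exp (-L (z + t)) - Real.exp (-L z)) / (z + t - z) := h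
  have e : z + t - z = t := by ring
  rw [e, eq_div_iff ht.ne'] at h'
  linarith

theorem hKN : StKN := by
  intro hLN H hB Γ _ θ hS x y P Q Q' c hx hy hc h1 h2 hQ' hQ't
  obtain ⟨hPm, hPt, hPd⟩ := hx
  obtain ⟨hQm, hQt, hQd⟩ := hy
  obtain ⟨P', hP'm, hP'⟩ := hB.deriv P hPm
  have hQ'm : Q' ∈ H := hB.dmem Q hQm Q' hQ'
  have hQpos : ∀ᶠ z in atTop, 0 < Q z := hQt.eventually_gt_atTop 0
  have hPpos : ∀ᶠ z in atTop, 0 < P z := hPt.eventually_gt_atTop 0
  have hP'pos : ∀ᶠ z in atTop, 0 < P' z := hB.dpos P hPm P' hPt hP'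
  have hcQ : (fun z => c * Q z - P z) ∈ H := hB.sub _ (hB.smul c Q hQm) _ hPm
  have hcd : ∀ᶠ z in atTop, HasDerivAt (fun z => c * Q z - P z) (c * Q' z - P' z) z := by
    filter_upwards [hQ', hP'] with z ha hb
    exact (ha.const_mul c).sub hb
  have hcpos : ∀ᶠ z in atTop, 0 < c * Q' z - P' z := hB.dpos _ hcQ _ h1 hcd
  obtain ⟨c', hc'⟩ : ∃ c', c' = max c 0 := ⟨_, rfl⟩
  have hc'0 : 0 ≤ c' := by rw [hc']; exact le_max_right _ _
  have hcc' : c ≤ c' := by rw [hc']; exact le_max_left _ _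
  have hc'1 : c' < 1 := by rw [hc']; exact max_lt hc zero_lt_one
  have hPQ : ∀ᶠ z in atTop, P z ≤ Q z := by
    filter_upwards [h1.eventually_ge_atTop 0, hQpos] with z ha hb
    nlinarith
  -- `Q' ≤ Q ^ 2`
  have hinv : Tendsto (fun z => (Q z)⁻¹) atTop (𝓝 0) := tendsto_inv_atTop_zero.comp hQt
  have hinvd : ∀ᶠ z in atTop, HasDerivAt (fun z => (Q z)⁻¹) (-Q' z / (Q z) ^ 2) z := by
    filter_upwards [hQ', hQpos] with z ha hb
    exact ha.inv hb.ne'
  have hQ2 : ∀ᶠ z in atTop, Q' z ≤ (Q z) ^ 2 := by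
    have h3 := hB.dlim _ (hB.inv Q hQm) 0 _ hinv hinvd
    filter_upwards [h3.eventually (lt_mem_nhds (show (-1 : ℝ) < 0 by norm_num)), hQpos] with z ha hb
    have hb2 : 0 < (Q z) ^ 2 := by positivity
    rw [lt_div_iff₀ hb2] at ha
    linarith
  -- the error
  obtain ⟨e, hedef⟩ : ∃ e : ℝ → ℝ, e = fun z => 2 * Real.exp (-P z) * (Q z) ^ 2 := ⟨_, rfl⟩
  have he : Tendsto e atTop (𝓝 0) := by
    have h3 : Tendsto (fun z => 2 * Real.exp (-(P z - 2 * Real.log (Q z)))) atTop (𝓝 (2 * 0)) :=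
      (Real.tendsto_exp_neg_atTop_nhds_zero.comp h2).const_mul 2
    rw [mul_zero] at h3
    refine h3.congr' ?_
    filter_upwards [hQpos] with z hz
    rw [hedef]
    have h4 : Real.exp (-(P z - 2 * Real.log (Q z))) = Real.exp (-P z) * (Q z) ^ 2 := by
      rw [show -(P z - 2 * Real.log (Q z)) = -P z + (Real.log (Q z) + Real.log (Q z)) by ring,
        Real.exp_add, Real.exp_add, Real.exp_log hz]
      ring
    rw [h4]
    ring
  have he0 : ∀ z, 0 ≤ e z := by
    intro z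
    rw [hedef]
    positivity
  -- logarithm of the derivative
  have hlQm : (fun z => Real.log (Q' z)) ∈ H := hB.comp Real.log hB.log Q' hQ'm hQ't
  have hlQt : Tendsto (fun z => Real.log (Q' z)) atTop atTop := Real.tendsto_log_atTop.comp hQ't
  have hlog : ∀ᶠ z in atTop, 0 ≤ Real.log (Q' z) ∧ Real.log (Q' z) ≤ Q z := by
    have h3 : ∀ᶠ z in atTop, 2 * Real.log (Q z) ≤ Q z := by
      have h4 : ∀ᶠ s : ℝ in atTop, 2 * Real.log s ≤ s := by
        have h5 := Real.isLittleO_log_id_atTop.bound (show (0 : ℝ) < 1 / 2 by norm_num)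
        filter_upwards [h5, eventually_ge_atTop (1 : ℝ)] with s hs hs1
        rw [Real.norm_eq_abs, Real.norm_eq_abs, abs_of_nonneg (Real.log_nonneg hs1)] at hs
        have h6 : |id s| = s := abs_of_nonneg (by show (0:ℝ) ≤ s; linarith)
        rw [h6] at hs
        linarith
      exact hQt.eventually h4
    filter_upwards [h3, hQ2, hlQt.eventually_ge_atTop 0, hQ't.eventually_gt_atTop 0, hQpos]
      with z ha hb hc0 hd hq
    refine ⟨hc0, ?_⟩
    have h7 : Real.log (Q' z) ≤ Real.log ((Q z) ^ 2) := Real.log_le_log hd hb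
    rw [Real.log_pow] at h7
    push_cast at h7
    linarith
  obtain ⟨M1, hM1⟩ := hLN H hB Q hQm hQt
  obtain ⟨M2, hM2⟩ := hLN H hB _ hlQm hlQt
  obtain ⟨M3, hM3⟩ := hLN H hB P hPm hPt
  -- local variation
  have hloc : ∀ᶠ z in atTop, ∀ ξ, z ≤ ξ → ξ ≤ z + Real.exp (-P z) →
      |Q ξ - Q z| ≤ e z ∧ |Real.log (Q' ξ) - Real.log (Q' z)| ≤ e z ∧ |P ξ - P z| ≤ e z := by
    filter_upwards [eventually_ge_atTop M1, eventually_ge_atTop M2, eventually_ge_atTop M3,
      he.eventually (gt_mem_nhds (show (0 : ℝ) < 1 by norm_num)), hlog, hPQ, hPpos]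
      with z g1 g2 g3 g4 g5 g6 g7 ξ hξ1 hξ2
    have hab : |ξ - z| ≤ Real.exp (-P z) := by
      rw [abs_of_nonneg (by linarith)]
      linarith
    have key : ∀ L : ℝ, 0 ≤ L → L ≤ Q z → |ξ - z| * L ^ 2 ≤ Real.exp (-P z) * (Q z) ^ 2 := by
      intro L hL0 hL1
      have : L ^ 2 ≤ (Q z) ^ 2 := pow_le_pow_left₀ hL0 hL1 2
      exact mul_le_mul hab this (by positivity) (by positivity)
    have hez : e z = 2 * (Real.exp (-P z) * (Q z) ^ 2) := by
      rw [hedef]
      ring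
    have hQ0 : 0 ≤ Q z := by linarith
    have k1 := key (Q z) hQ0 le_rfl
    have k2 := key (Real.log (Q' z)) g5.1 g5.2
    have k3 := key (P z) g7.le g6
    refine ⟨?_, ?_, ?_⟩
    · exact (hM1 z ξ g1 (by linarith) (by linarith)).trans (by linarith)
    · exact (hM2 z ξ g2 (by linarith) (by linarith)).trans (by linarith)
    · exact (hM3 z ξ g3 (by linarith) (by linarith)).trans (by linarith)
  -- properties at all later points
  have hlate : ∀ᶠ z in atTop, ∀ ξ, z ≤ ξ → (dsp θ x ξ = Real.exp (-P ξ) ∧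
      dsp θ y ξ = Real.exp (-Q ξ) ∧ HasDerivAt P (P' ξ) ξ ∧ HasDerivAt Q (Q' ξ) ξ ∧ 0 < P' ξ ∧
      0 < c * Q' ξ - P' ξ ∧ 0 < Q' ξ) := by
    rw [eventually_forall_ge_atTop]
    filter_upwards [hPd, hQd, hP', hQ', hP'pos, hcpos, hQ't.eventually_gt_atTop 0]
      with ξ i1 i2 i3 i4 i5 i6 i7
    exact ⟨i1, i2, i3, i4, i5, i6, i7⟩
  obtain ⟨T, hT⟩ : ∃ T : ℝ → ℝ, T = fun z => Real.exp (Real.log (Q' z) - (Q z + P z)) := ⟨_, rfl⟩
  have hexp2 : ∀ᶠ z in atTop, Real.exp (2 * e z) ≤ 2 ∧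
      (1 - c') / 2 ≤ Real.exp (-(2 * e z)) - c' * Real.exp (2 * e z) := by
    have l1 : Tendsto (fun z => Real.exp (2 * e z)) atTop (𝓝 1) := by
      have : Tendsto (fun z => 2 * e z) atTop (𝓝 (2 * 0)) := he.const_mul 2
      rw [mul_zero] at this
      have h5 := (Real.continuous_exp.tendsto 0).comp this
      rw [Real.exp_zero] at h5
      exact h5
    have l2 : Tendsto (fun z => Real.exp (-(2 * e z))) atTop (𝓝 1) := by
      have : Tendsto (fun z => -(2 * e z)) atTop (𝓝 (-(2 * 0))) := (he.const_mul 2).neg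
      rw [mul_zero, neg_zero] at this
      have h5 := (Real.continuous_exp.tendsto 0).comp this
      rw [Real.exp_zero] at h5
      exact h5
    have l3 : Tendsto (fun z => Real.exp (-(2 * e z)) - c' * Real.exp (2 * e z)) atTop
        (𝓝 (1 - c' * 1)) := l2.sub (l1.const_mul c')
    rw [mul_one] at l3
    filter_upwards [l1.eventually (gt_mem_nhds (show (1 : ℝ) < 2 by norm_num)),
      l3.eventually (lt_mem_nhds (show (1 - c') / 2 < 1 - c' by linarith))] with z i1 i2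
    exact ⟨i1.le, i2.le⟩
  have hmain : ∀ᶠ z in atTop,
      (1 - c') / 2 * T z ≤ dsp θ ⁅x, y⁆ (θ (y * x) z) ∧ dsp θ ⁅x, y⁆ (θ (y * x) z) ≤ 2 * T z ∧
      |θ (y * x) z - z| ≤ 3 * Real.exp (-P z) := by
    filter_upwards [hloc, hlate, hexp2, hS.mul ⁅x, y⁆ (y * x), hS.mul y x, hS.mul x y, hPQ]
      with z j1 j2 j3 j4 j5 j6 j7
    have hkyx : ⁅x, y⁆ * (y * x) = x * y := by
      rw [commutatorElement_def]
      group
    rw [hkyx] at j4
    obtain ⟨a, ha⟩ : ∃ a, a = Real.exp (-P z) := ⟨_, rfl⟩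
    obtain ⟨b, hb⟩ : ∃ b, b = Real.exp (-Q z) := ⟨_, rfl⟩
    have ha0 : 0 < a := by rw [ha]; exact Real.exp_pos _
    have hb0 : 0 < b := by rw [hb]; exact Real.exp_pos _
    have hba : b ≤ a := by rw [ha, hb]; exact Real.exp_le_exp.2 (by linarith)
    have hxz : θ x z = z + a := by
      have := (j2 z le_rfl).1
      unfold dsp at this
      rw [ha]
      linarith
    have hyz : θ y z = z + b := by
      have := (j2 z le_rfl).2.1
      unfold dsp at this
      rw [hb]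
      linarith
    have hyx : θ y (θ x z) = z + a + Real.exp (-Q (z + a)) := by
      rw [hxz]
      have := (j2 (z + a) (by linarith)).2.1
      unfold dsp at this
      linarith
    have hxy : θ x (θ y z) = z + b + Real.exp (-P (z + b)) := by
      rw [hyz]
      have := (j2 (z + b) (by linarith)).1
      unfold dsp at this
      linarith
    obtain ⟨ξ₁, m1, m2, m3⟩ := mvt_exp P P' z b hb0 (fun ξ hξ => (j2 ξ hξ).2.2.1)
    obtain ⟨ξ₂, n1, n2, n3⟩ := mvt_exp Q Q' z a ha0 (fun ξ hξ => (j2 ξ hξ).2.2.2.1)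
    have hdk : dsp θ ⁅x, y⁆ (θ (y * x) z) =
        Q' ξ₂ * Real.exp (-Q ξ₂) * a - P' ξ₁ * Real.exp (-P ξ₁) * b := by
      show θ ⁅x, y⁆ (θ (y * x) z) - θ (y * x) z = _
      rw [← j4, j6, j5, hxy, hyx]
      rw [← ha] at m3
      rw [← hb] at n3
      linarith
    obtain ⟨o1, o2, o3⟩ := j1 ξ₁ m1.le (by rw [← ha]; linarith)
    obtain ⟨p1, p2, p3⟩ := j1 ξ₂ n1.le (by rw [← ha]; linarith)
    obtain ⟨-, -, -, -, q5, q6, q7⟩ := j2 ξ₁ m1.le
    obtain ⟨-, -, -, -, -, -, r7⟩ := j2 ξ₂ n1.le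
    have hTz : T z = Real.exp (Real.log (Q' z) - (Q z + P z)) := by rw [hT]
    have hT0 : 0 < T z := by rw [hTz]; exact Real.exp_pos _
    -- first term
    have hU : Q' ξ₂ * Real.exp (-Q ξ₂) * a =
        Real.exp (Real.log (Q' ξ₂) - Q ξ₂ - P z) := by
      rw [ha, show Real.log (Q' ξ₂) - Q ξ₂ - P z = Real.log (Q' ξ₂) + (-Q ξ₂) + (-P z) by ring,
        Real.exp_add, Real.exp_add, Real.exp_log r7]
    have hU1 : T z * Real.exp (-(2 * e z)) ≤ Q' ξ₂ * Real.exp (-Q ξ₂) * a := by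
      rw [hU, hTz, ← Real.exp_add]
      refine Real.exp_le_exp.2 ?_
      have := abs_le.1 p1
      have := abs_le.1 p2
      linarith
    have hU2 : Q' ξ₂ * Real.exp (-Q ξ₂) * a ≤ T z * Real.exp (2 * e z) := by
      rw [hU, hTz, ← Real.exp_add]
      refine Real.exp_le_exp.2 ?_
      have := abs_le.1 p1
      have := abs_le.1 p2
      linarith
    -- second term
    have hV0 : 0 ≤ P' ξ₁ * Real.exp (-P ξ₁) * b := by positivity
    have hV1 : P' ξ₁ * Real.exp (-P ξ₁) * b ≤ c' * (T z * Real.exp (2 * e z)) := by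
      have h8 : P' ξ₁ ≤ c' * Q' ξ₁ := by nlinarith
      have h9 : Q' ξ₁ * Real.exp (-P ξ₁) * b = Real.exp (Real.log (Q' ξ₁) - P ξ₁ - Q z) := by
        rw [hb, show Real.log (Q' ξ₁) - P ξ₁ - Q z = Real.log (Q' ξ₁) + (-P ξ₁) + (-Q z) by ring,
          Real.exp_add, Real.exp_add, Real.exp_log q7]
      have h10 : Q' ξ₁ * Real.exp (-P ξ₁) * b ≤ T z * Real.exp (2 * e z) := by
        rw [h9, hTz, ← Real.exp_add]
        refine Real.exp_le_exp.2 ?_
        have := abs_le.1 o2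
        have := abs_le.1 o3
        linarith
      calc P' ξ₁ * Real.exp (-P ξ₁) * b ≤ c' * Q' ξ₁ * Real.exp (-P ξ₁) * b := by
            gcongr
        _ = c' * (Q' ξ₁ * Real.exp (-P ξ₁) * b) := by ring
        _ ≤ c' * (T z * Real.exp (2 * e z)) := mul_le_mul_of_nonneg_left h10 hc'0
    refine ⟨?_, ?_, ?_⟩
    · rw [hdk]
      have h11 : T z * ((1 - c') / 2) ≤ T z * (Real.exp (-(2 * e z)) - c' * Real.exp (2 * e z)) :=
        mul_le_mul_of_nonneg_left j3.2 hT0.le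
      nlinarith
    · rw [hdk]
      have h12 : T z * Real.exp (2 * e z) ≤ T z * 2 := mul_le_mul_of_nonneg_left j3.1 hT0.le
      linarith
    · rw [j5, hyx]
      obtain ⟨s1, -, -⟩ := j1 (z + a) (by linarith) (by rw [← ha])
      have h13 : Real.exp (-Q (z + a)) ≤ 2 * a := by
        have h14 : Real.exp (-Q (z + a)) ≤ a * Real.exp (2 * e z) := by
          rw [ha, ← Real.exp_add]
          refine Real.exp_le_exp.2 ?_
          have h15 := (abs_le.1 s1).1
          rw [ha] at h15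
          have := he0 z
          linarith
        nlinarith [j3.1]
      have h16 : 0 < Real.exp (-Q (z + a)) := Real.exp_pos _
      rw [abs_of_nonneg (by linarith), ← ha]
      linarith
  -- positivity of the commutator
  have hpos : Pos θ ⁅x, y⁆ := by
    refine hS.trans (y * x) (fun w => w < θ ⁅x, y⁆ w) ?_
    filter_upwards [hmain] with z hz
    have hT0 : 0 < T z := by rw [hT]; exact Real.exp_pos _
    have h1' := hz.1
    unfold dsp at h1'
    have : 0 < (1 - c') / 2 * T z := mul_pos (by linarith) hT0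
    linarith
  obtain ⟨K, hKm, hKt, hKd⟩ := hS.ps ⁅x, y⁆ hpos
  obtain ⟨M4, hM4⟩ := hLN H hB K hKm hKt
  obtain ⟨B₀, hB₀⟩ : ∃ B₀, B₀ = -Real.log ((1 - c') / 2) := ⟨_, rfl⟩
  have hB₀2 : Real.log 2 ≤ B₀ := by
    rw [hB₀, ← Real.log_inv]
    refine Real.log_le_log (by norm_num) ?_
    rw [inv_div, le_div_iff₀ (by linarith)]
    linarith
  refine ⟨K, B₀ + 1, ⟨hKm, hKt, hKd⟩, ?_⟩
  have hw : Tendsto (θ (y * x)) atTop atTop := hS.top (y * x)
  filter_upwards [hmain, hw.eventually hKd, hw.eventually (eventually_ge_atTop M4),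
    hw.eventually (hKt.eventually_ge_atTop 0), eventually_ge_atTop M4, hlog, hPQ,
    hQt.eventually_ge_atTop B₀, he.eventually (gt_mem_nhds (show (0 : ℝ) < 1 / 27 by norm_num)), hQpos]
    with z t1 t2 t3 t4 t5 t6 t7 t8 t9 t10
  obtain ⟨w, hwd⟩ : ∃ w, w = θ (y * x) z := ⟨_, rfl⟩
  rw [← hwd] at t1 t2 t3 t4
  have hTz : T z = Real.exp (Real.log (Q' z) - (Q z + P z)) := by rw [hT]
  have hT0 : 0 < T z := by rw [hTz]; exact Real.exp_pos _
  have hlogT : Real.log (T z) = Real.log (Q' z) - (Q z + P z) := by rw [hTz, Real.log_exp]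
  have hc2 : 0 < (1 - c') / 2 := by linarith
  obtain ⟨u1, u2, u3⟩ := t1
  rw [t2] at u1 u2
  have v1 : Real.log ((1 - c') / 2) + Real.log (T z) ≤ -K w := by
    rw [← Real.log_mul hc2.ne' hT0.ne', ← Real.log_exp (-K w)]
    exact Real.log_le_log (mul_pos hc2 hT0) u1
  have v2 : -K w ≤ Real.log 2 + Real.log (T z) := by
    rw [← Real.log_mul (by norm_num) hT0.ne', ← Real.log_exp (-K w)]
    exact Real.log_le_log (Real.exp_pos _) u2
  have hKw : K w ≤ 3 * Q z := by linarith [t6.1]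
  have hez : e z = 2 * (Real.exp (-P z) * (Q z) ^ 2) := by
    rw [hedef]
    ring
  have hsq : (K w) ^ 2 ≤ 9 * (Q z) ^ 2 := by
    have := pow_le_pow_left₀ t4 hKw 2
    linarith [mul_pow (3 : ℝ) (Q z) 2]
  have hsmall : |z - w| * (K w) ^ 2 ≤ 27 * (Real.exp (-P z) * (Q z) ^ 2) := by
    rw [abs_sub_comm]
    calc |w - z| * (K w) ^ 2 ≤ (3 * Real.exp (-P z)) * (9 * (Q z) ^ 2) :=
          mul_le_mul u3 hsq (by positivity) (by positivity)
      _ = 27 * (Real.exp (-P z) * (Q z) ^ 2) := by ring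
  have hv := hM4 w z t3 t5 (by linarith)
  have hv1 : |K z - K w| ≤ 1 := hv.trans (by linarith)
  have hv2 := abs_le.1 hv1
  rw [abs_le]
  constructor <;> linarith [hv2.1, hv2.2]

end Pool.Agent.Helper10.HG
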