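import Pool.Agent.Helper35.HG.StC
import Pool.Agent.Helper47.HG.M_ZBD

/-!
Project HG (MP_925021_gt), module PKB (helper10): the package under the pinching `PinB`.
-/

set_option autoImplicit false

namespace Helper10.HG

open Helper35.HG Helper35.HC Helper35.HSF Helper35.MS Helper35.PI Helper35.PI2 Helper32.CL
open scoped ContDiff Manifold Topology ENNReal BigOperators
open MeasureTheory Set Filter

/-- the cubic sum, sharper form -/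
theorem cub2 {n N : ℕ} (a : Fin n → Fin n → EE N) (m : EE N) :
    (∑ k, ∑ l, ∑ q, (inner ℝ (a k l) (a k q) : ℝ) * inner ℝ (a q l) m) ^ 2
      ≤ XX a ^ 2 * (XX a * ‖m‖ ^ 2) := by
  have hX0 : 0 ≤ XX a := by
    unfold XX
    positivity
  have e1 : (∑ k, ∑ l, ∑ q, (inner ℝ (a k l) (a k q) : ℝ) * inner ℝ (a q l) m)
      = ∑ l, ∑ q, (∑ k, (inner ℝ (a k l) (a k q) : ℝ)) * inner ℝ (a q l) m := by
    rw [Finset.sum_comm]
    refine Finset.sum_congr rfl fun l _ => ?_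
    rw [Finset.sum_comm]
    refine Finset.sum_congr rfl fun q _ => ?_
    rw [Finset.sum_mul]
  have e2 : (∑ l, ∑ q, (∑ k, (inner ℝ (a k l) (a k q) : ℝ)) ^ 2) ≤ XX a ^ 2 := by
    have e3 : XX a ^ 2 = ∑ l, ∑ q, (∑ k, ‖a k l‖ ^ 2) * (∑ k, ‖a k q‖ ^ 2) := by
      have e4 : XX a = ∑ l, ∑ k, ‖a k l‖ ^ 2 := by
        unfold XX
        exact Finset.sum_comm
      rw [e4, pow_two, Finset.sum_mul_sum]
    rw [e3]
    refine Finset.sum_le_sum fun l _ => Finset.sum_le_sum fun q _ => ?_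
    have e5 : |∑ k, (inner ℝ (a k l) (a k q) : ℝ)| ≤ ∑ k, ‖a k l‖ * ‖a k q‖ :=
      (Finset.abs_sum_le_sum_abs _ _).trans
        (Finset.sum_le_sum fun k _ => abs_real_inner_le_norm _ _)
    have e6 : (∑ k, (inner ℝ (a k l) (a k q) : ℝ)) ^ 2 ≤ (∑ k, ‖a k l‖ * ‖a k q‖) ^ 2 := by
      rw [← sq_abs]
      exact pow_le_pow_left₀ (abs_nonneg _) e5 2
    exact e6.trans (Finset.sum_mul_sq_le_sq_mul_sq _ _ _)
  have e7 : (∑ l, ∑ q, (inner ℝ (a q l) m : ℝ) ^ 2) ≤ XX a * ‖m‖ ^ 2 := by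
    have e4 : XX a * ‖m‖ ^ 2 = ∑ l, ∑ k, ‖a k l‖ ^ 2 * ‖m‖ ^ 2 := by
      unfold XX
      rw [Finset.sum_comm, Finset.sum_mul]
      exact Finset.sum_congr rfl fun l _ => by rw [Finset.sum_mul]
    rw [e4]
    refine Finset.sum_le_sum fun l _ => Finset.sum_le_sum fun q _ => ?_
    rw [← sq_abs, ← mul_pow]
    exact pow_le_pow_left₀ (abs_nonneg _) (abs_real_inner_le_norm _ _) 2
  rw [e1]
  have e8 := Pool.Agent.Helper47.HG.cs2 (fun l q => ∑ k, (inner ℝ (a k l) (a k q) : ℝ))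
    (fun l q => (inner ℝ (a q l) m : ℝ))
  exact e8.trans (mul_le_mul e2 e7 (by positivity) (by positivity))

/-- the lower bound of `AAH - Sq` without convexity -/
theorem zlow (hSQG : StSQG) {n N : ℕ} (hn : 1 ≤ n) (A : Fin n → Fin n → EE N) (hA : SymV A) {C : ℝ}
    (hC : 1 ≤ C) (hth : thA2 A ≤ C * YY A) : -(6 * C * YY A * thA2 A) ≤ AAH A - Sq A := by
  have hn0 : (0 : ℝ) < n := by exact_mod_cast (by omega : 0 < n)
  obtain ⟨m, hm⟩ : ∃ m : EE N, m = (1 / (n : ℝ)) • Hv A := ⟨_, rfl⟩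
  obtain ⟨a, ha⟩ : ∃ a : Fin n → Fin n → EE N,
      a = (fun i j => A i j - (if i = j then (1 : ℝ) else 0) • m) := ⟨_, rfl⟩
  obtain ⟨v, hv⟩ : ∃ v : ℝ, v = (∑ i, ∑ j, (inner ℝ (a i j) m : ℝ) ^ 2) := ⟨_, rfl⟩
  obtain ⟨h1, h2, h3, h4, h5, h6, h7, h8, h9, h10, h11, h12⟩ := hSQG n N hn A hA m a hm ha v hv
  have hHm : Hv A = (n : ℝ) • m := by
    rw [hm, smul_smul, mul_one_div_cancel hn0.ne', one_smul]
  have ha' : ∀ i j, A i j = a i j + (if i = j then (1 : ℝ) else 0) • m := by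
    intro i j
    rw [ha]
    simp
  have hA2 := Pool.Agent.Helper47.HG.aah A m a hHm ha' h1 h2
  have hS := cub2 a m
  rw [h4] at hS h7
  rw [← hv, h4] at hA2
  obtain ⟨S, hSd⟩ : ∃ S : ℝ,
      S = ∑ k, ∑ l, ∑ q, (inner ℝ (a k l) (a k q) : ℝ) * inner ℝ (a q l) m := ⟨_, rfl⟩
  rw [← hSd] at hS hA2
  obtain ⟨κ, hκ⟩ : ∃ κ : ℝ, κ = ‖m‖ ^ 2 := ⟨_, rfl⟩
  have hκ0 : 0 ≤ κ := by rw [hκ]; positivity
  have hκ4 : ‖m‖ ^ 4 = κ ^ 2 := by rw [hκ]; ring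
  rw [hκ4, ← hκ] at hA2
  rw [hκ4] at h5
  rw [← hκ] at hS h3
  obtain ⟨θ, hθ⟩ : ∃ θ : ℝ, θ = thA2 A := ⟨_, rfl⟩
  rw [← hθ] at hS hA2 h7 h9 hth ⊢
  obtain ⟨Y, hY⟩ : ∃ Y : ℝ, Y = YY A := ⟨_, rfl⟩
  rw [← hY] at h3 hth ⊢
  have hY0 : 0 ≤ Y := by rw [h3]; positivity
  have hd : AAH A - Sq A = n * S + n * κ * θ - Sq a := by
    rw [hA2, h5]
    ring
  rw [hd]
  have b1 : (n * S) ^ 2 ≤ (C * Y * θ) ^ 2 := by
    have c1 : (n * S) ^ 2 ≤ n ^ 2 * (θ ^ 2 * (θ * κ)) := by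
      rw [mul_pow]
      exact mul_le_mul_of_nonneg_left hS (by positivity)
    have c2 : (n : ℝ) ^ 2 * (θ ^ 2 * (θ * κ)) = θ ^ 2 * (θ * Y) := by rw [h3]; ring
    have c3 : θ ^ 2 * (θ * Y) ≤ θ ^ 2 * ((C * Y) * Y) :=
      mul_le_mul_of_nonneg_left (mul_le_mul_of_nonneg_right hth hY0) (by positivity)
    have c4 : θ ^ 2 * ((C * Y) * Y) ≤ C * (θ ^ 2 * ((C * Y) * Y)) := by
      have : 0 ≤ θ ^ 2 * ((C * Y) * Y) := by positivity
      nlinarith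
    calc (n * S) ^ 2 ≤ n ^ 2 * (θ ^ 2 * (θ * κ)) := c1
      _ = θ ^ 2 * (θ * Y) := c2
      _ ≤ θ ^ 2 * ((C * Y) * Y) := c3
      _ ≤ C * (θ ^ 2 * ((C * Y) * Y)) := c4
      _ = (C * Y * θ) ^ 2 := by ring
  have b2 := abs_le_of_sq_le_sq' b1 (by positivity)
  have b3 : Sq a ≤ 5 * θ ^ 2 := (le_abs_self _).trans h7
  have b4 : θ * θ ≤ θ * (C * Y) := mul_le_mul_of_nonneg_left hth h9
  have b5 : 0 ≤ n * κ * θ := by positivity
  nlinarith [b2.1]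

theorem pkb_scalar {ν C X Y Z S e τ : ℝ} (hν : 2 ≤ ν) (hC : 1 ≤ C)
    (hY : 1 ≤ Y) (hth : 0 ≤ X - Y / ν) (hZ1 : Z ≤ X * Y) (hZ2 : Y ^ 2 / ν ≤ Z)
    (hR : S - Z / ν ≤ 5 * X * (X - Y / ν))
    (p1 : X - Y / ν ≤ C * Y)
    (he : 0 ≤ e) (hτ : 3 / (ν + 2) * e ≤ τ) :
    0 ≤ τ - e / ν ∧ 0 ≤ X - Z / Y ∧ X - Z / Y ≤ X - Y / ν ∧
      e ≤ ν * (ν + 2) / (2 * (ν - 1)) * (τ - e / ν) ∧ Y / ν ≤ Z / Y ∧ Z / Y ≤ 2 * C * Y ∧
      S - Z / ν ≤ 10 * C * Y * (X - Y / ν) ∧ Z / Y ≤ X ∧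
      16 * ν * (X * τ) ≤ 128 * ν * C * (Y * (τ - e / ν)) := by
  have hY0 : 0 < Y := by linarith
  have hν0 : 0 < ν := by linarith
  have hν1 : 0 < ν - 1 := by linarith
  have hν2 : 0 < ν + 2 := by linarith
  have hZY : Z / Y ≤ X := by rw [div_le_iff₀ hY0]; exact hZ1
  have hYZ : Y / ν ≤ Z / Y := by
    rw [le_div_iff₀ hY0]
    calc Y / ν * Y = Y ^ 2 / ν := by ring
      _ ≤ Z := hZ2
  have hYν : Y / ν ≤ C * Y := by
    rw [div_le_iff₀ hν0]; nlinarith [mul_pos hY0 hν0]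
  have hX2 : X ≤ 2 * C * Y := by linarith
  have hX0 : 0 ≤ X := by
    have : 0 ≤ Y / ν := by positivity
    linarith
  -- the gradient
  have hG : 2 * (ν - 1) / (ν * (ν + 2)) * e ≤ τ - e / ν := by
    have : 2 * (ν - 1) / (ν * (ν + 2)) * e = 3 / (ν + 2) * e - e / ν := by
      field_simp; ring
    linarith
  have hG0 : 0 ≤ τ - e / ν := le_trans (by positivity) hG
  have he2 : e ≤ ν * (ν + 2) / (2 * (ν - 1)) * (τ - e / ν) := by
    have h := mul_le_mul_of_nonneg_left hG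
      (show 0 ≤ ν * (ν + 2) / (2 * (ν - 1)) by positivity)
    have h' : ν * (ν + 2) / (2 * (ν - 1)) * (2 * (ν - 1) / (ν * (ν + 2)) * e) = e := by
      field_simp
    linarith
  have hτ4 : τ ≤ 4 * (τ - e / ν) := by
    have h1 : e / ν ≤ (ν + 2) / (2 * (ν - 1)) * (τ - e / ν) := by
      rw [div_le_iff₀ hν0]
      calc e ≤ ν * (ν + 2) / (2 * (ν - 1)) * (τ - e / ν) := he2
        _ = (ν + 2) / (2 * (ν - 1)) * (τ - e / ν) * ν := by ring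
    have h2 : (ν + 2) / (2 * (ν - 1)) ≤ 2 := by
      rw [div_le_iff₀ (by positivity)]; linarith
    have h3 := mul_le_mul_of_nonneg_right h2 hG0
    linarith
  have hτ0 : 0 ≤ τ := le_trans (by positivity) hτ
  have hCY : 0 ≤ 2 * C * Y := by positivity
  refine ⟨hG0, by linarith, by linarith, he2, hYZ, by linarith, ?_, hZY, ?_⟩
  · refine hR.trans ?_
    have := mul_le_mul_of_nonneg_right hX2 hth
    linarith
  · have h1 : X * τ ≤ (2 * C * Y) * (4 * (τ - e / ν)) :=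
      mul_le_mul hX2 hτ4 hτ0 hCY
    have h2 := mul_le_mul_of_nonneg_left h1 (show 0 ≤ 16 * ν by positivity)
    linarith

theorem hPKB (hJPK : StJPK) (hSQG : StSQG) (hT3 : StT3) : StPKB := by
  intro n hn N M _ _ _ T F ts κ₀ δ C hP t ht q Y θ e hY hθ he
  have ht' : t ∈ Ioo 0 T := ⟨lt_of_lt_of_le hP.ts0.1 ht.1, ht.2⟩
  obtain ⟨_, hJ⟩ := hJPK n N (by omega) M (Ioo 0 T) F hP.fl
  obtain ⟨L, u, θ', A, T', hG, hAeq, hTeq, hsA, hsT, hAA, hHH, hZF, hth, heH, h1, h2, h3, h4, h5,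
    h6, h7⟩ := hJ q t ht'
  have hPin : PinB n κ₀ δ C A := by rw [hAeq]; exact hP.P t ht q L u θ' hG
  have hYY : YY A = Y := by rw [hY, hHH]; rfl
  have hth' : thA2 A = XX A - Y / n := by unfold thA2; rw [hYY]
  have hal : al2 A = XX A - ZZ A / Y := by unfold al2; rw [hYY]
  obtain ⟨_, _, _, _, _, _, _, hR, hth0, _, hZ1, hZ2⟩ :=
    hSQG n N (by omega) A hsA ((1 / (n : ℝ)) • Hv A) _ rfl rfl _ rfl
  have hlow := zlow hSQG (by omega) A hsA hP.C1 hPin.th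
  have hY1 : 1 ≤ Y := by rw [hY]; exact hP.Y1 t ht' q
  have hν : (2 : ℝ) ≤ (n : ℝ) := by exact_mod_cast hn
  have hT := hT3 n N T' hsT
  have p1 := hPin.th
  rw [hYY] at hZ1 hZ2 p1 hlow
  rw [hth'] at hR hth0 p1 hlow
  have he0 : 0 ≤ eq2 T' := by
    unfold eq2
    exact Finset.sum_nonneg (fun k _ => by positivity)
  obtain ⟨a1, a2, a3, a4, a5, a6, a7, a8, a9⟩ :=
    pkb_scalar hν hP.C1 hY1 hth0 hZ1 hZ2 hR p1 he0 hT
  have hθA : θ = XX A - Y / n := by rw [hθ, hth, hth']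
  have heA : e = eq2 T' := by rw [he, heH]
  have hY0 : Y ≠ 0 := by linarith
  refine ⟨tq T' - eq2 T' / n, Sq A - ZZ A / n, AAH A - Sq A, al2 A, ZZ A / Y, a1, ?_, ?_, ?_, ?_,
    ?_, ?_, a5, a6, ?_, ?_, ?_, h1, ?_, ?_, ?_, ?_, ?_, ?_, ?_, ?_⟩
  · rw [hal]; exact a2
  · rw [hal, hθA]; exact a3
  · rw [hθA]; exact hth0
  · rw [hθA]; exact p1
  · rw [heA]; exact he0
  · rw [heA]; exact a4
  · rw [hθA]; exact a7
  · rw [hθA]; linarith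
  · rw [hAA, hθA]; ring
  · rw [h2, heA]
    have : 2 * (ZZ A / Y) * Y = 2 * ZZ A := by field_simp
    rw [this]
  · exact h3.trans a9
  · rw [h4, heA]
  · rw [hθ, heA]; exact h5
  · rw [hθ]; exact h6
  · rw [hY, heA]; exact h7
  · rw [hθA]; exact hlow
  · intro hk
    have hPA := hPin.pp (by rw [hYY]; exact hk)
    refine ⟨?_, ?_, ?_⟩
    · have := hPA.p1
      rw [hYY, hth'] at this
      rw [hθA]; exact this
    · have := hPA.p3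
      rw [hYY, hth'] at this
      rw [hθA]; exact this
    · have := hPA.p2 (by rw [hYY]; exact hk)
      rw [hYY, hth'] at this
      rw [hθA]; exact this

end Helper10.HG
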